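import Pool.Agent.H71.AVG.Law

/-!
# Codes of the own paths and jets at the time

`jt P θ a`: the coefficient of order `a` of the Taylor shift of `P` at `θ`. For polynomials of degree
`≤ K` and `|θ| ≤ 1` the coefficients are bounded by the jets and the jets by the coefficients
(`jt_le`, `co_le`); only the orders `≥ a` matter for the order `a`.

For the data `AD` of the own paths: digits of all the jets at the time (`jn`, `ja`) against the codes:
`L_jet`, `jet_L`, `l_jet`, `jet_l`. From equal contexts: `jn_g`, `ja_g`, `jn_w`; natural digits of the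
jets are few bits given the context: `nat_g`, `nat_w`.
-/

set_option autoImplicit false

namespace Pool.AVG5

open Finset Real
open Pool.Agent.H49.Ent Pool.Agent.H32.Dense Pool.STK Pool.K2S Pool.KAF Pool.M5 Pool.SLO Pool.BFL
open Pool.MIC Pool.TIE Pool.D2Hz Pool.OWN68 Pool.AVG71
open Pool.KVA (MI)

/-! ### Jets -/

/-- The jet of order `a` at `θ`. -/
noncomputable def jt (P : Polynomial ℝ) (θ : ℝ) (a : ℕ) : ℝ := (Polynomial.taylor θ P).coeff a

theorem jt_zero (P : Polynomial ℝ) (θ : ℝ) : jt P θ 0 = P.eval θ := Polynomial.taylor_coeff_zero θ P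

theorem jt_one (P : Polynomial ℝ) (θ : ℝ) : jt P θ 1 = P.derivative.eval θ :=
  Polynomial.taylor_coeff_one θ P

theorem jt_sub (P Q : Polynomial ℝ) (θ : ℝ) (a : ℕ) : jt (P - Q) θ a = jt P θ a - jt Q θ a := by
  unfold jt
  rw [map_sub, Polynomial.coeff_sub]

/-- The sum of the coefficients. -/
theorem jt_sum {K : ℕ} {P : Polynomial ℝ} (hP : P.natDegree ≤ K) (θ : ℝ) (a : ℕ) :
    jt P θ a = ∑ i ∈ Icc a K, (i.choose a : ℝ) * P.coeff i * θ ^ (i - a) := by
  unfold jt
  rw [Polynomial.taylor_coeff, Polynomial.hasseDeriv_apply, Polynomial.sum_over_range' _ _ (K + 1)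
    (by omega)]
  · rw [Polynomial.eval_finsetSum]
    have e1 : ∀ i ∈ range (K + 1), i ∉ Icc a K →
        (Polynomial.monomial (i - a) ((i.choose a : ℝ) * P.coeff i)).eval θ = 0 := by
      intro i hi hi'
      rw [mem_range] at hi
      rw [mem_Icc] at hi'
      have : i < a := by omega
      rw [Nat.choose_eq_zero_of_lt this]
      simp
    rw [← Finset.sum_subset (s₁ := Icc a K) (fun i hi => by
      rw [mem_Icc] at hi
      rw [mem_range]
      omega) e1]
    refine Finset.sum_congr rfl fun i _ => ?_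
    rw [Polynomial.eval_monomial]
  · intro i
    simp

/-- **The jets are bounded by the coefficients.** -/
theorem jt_le {K : ℕ} {P : Polynomial ℝ} (hP : P.natDegree ≤ K) {θ δ : ℝ} (hθ : |θ| ≤ 1)
    (hδ : 0 ≤ δ) {a : ℕ} (h : ∀ i, a ≤ i → |P.coeff i| ≤ δ) : |jt P θ a| ≤ 2 ^ (K + 1) * δ := by
  rw [jt_sum hP]
  refine (Finset.abs_sum_le_sum_abs _ _).trans ?_
  have h1 : ∀ i ∈ Icc a K, |(i.choose a : ℝ) * P.coeff i * θ ^ (i - a)| ≤ (i.choose a : ℝ) * δ := by
    intro i hi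
    rw [mem_Icc] at hi
    have e1 : (0 : ℝ) ≤ (i.choose a : ℝ) := Nat.cast_nonneg _
    rw [abs_mul, abs_mul, abs_of_nonneg e1, abs_pow]
    calc (i.choose a : ℝ) * |P.coeff i| * |θ| ^ (i - a) ≤ (i.choose a : ℝ) * |P.coeff i| * 1 :=
          mul_le_mul_of_nonneg_left (pow_le_one₀ (abs_nonneg _) hθ) (by positivity)
      _ ≤ (i.choose a : ℝ) * δ := by
          rw [mul_one]
          exact mul_le_mul_of_nonneg_left (h i hi.1) e1
  refine (Finset.sum_le_sum h1).trans ?_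
  rw [← Finset.sum_mul]
  refine mul_le_mul_of_nonneg_right ?_ hδ
  have h2 : ∑ i ∈ Icc a K, i.choose a = (K + 1).choose (a + 1) := Nat.sum_Icc_choose K a
  have h3 : (K + 1).choose (a + 1) ≤ 2 ^ (K + 1) := Nat.choose_le_two_pow _ _
  have h4 : ∑ i ∈ Icc a K, (i.choose a : ℝ) = ((∑ i ∈ Icc a K, i.choose a : ℕ) : ℝ) := by
    push_cast
    rfl
  rw [h4, h2]
  exact_mod_cast h3

/-- The coefficients are jets. -/
theorem co_jt (P : Polynomial ℝ) (θ : ℝ) (a : ℕ) :
    P.coeff a = jt (Polynomial.taylor θ P) (-θ) a := by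
  unfold jt
  rw [Polynomial.taylor_taylor, neg_add_cancel, Polynomial.taylor_zero]

/-- **The coefficients are bounded by the jets.** -/
theorem co_le {K : ℕ} {P : Polynomial ℝ} (hP : P.natDegree ≤ K) {θ δ : ℝ} (hθ : |θ| ≤ 1)
    (hδ : 0 ≤ δ) {a : ℕ} (h : ∀ i, a ≤ i → |jt P θ i| ≤ δ) : |P.coeff a| ≤ 2 ^ (K + 1) * δ := by
  rw [co_jt P θ a]
  refine jt_le (by rw [Polynomial.natDegree_taylor]; exact hP) (by rw [abs_neg]; exact hθ) hδ ?_
  exact fun i hi => h i hi

theorem co_sub {K : ℕ} {P Q : Polynomial ℝ} (hP : P.natDegree ≤ K) (hQ : Q.natDegree ≤ K)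
    {θ δ : ℝ} (hθ : |θ| ≤ 1) (hδ : 0 ≤ δ) {a : ℕ}
    (h : ∀ i, a ≤ i → i ≤ K → |jt P θ i - jt Q θ i| ≤ δ) :
    |P.coeff a - Q.coeff a| ≤ 2 ^ (K + 1) * δ := by
  have h1 : (P - Q).natDegree ≤ K := (Polynomial.natDegree_sub_le _ _).trans (max_le hP hQ)
  rw [← Polynomial.coeff_sub]
  refine co_le h1 hθ hδ fun i hi => ?_
  rcases le_or_gt i K with h2 | h2
  · rw [jt_sub]
    exact h i hi h2
  · have : jt (P - Q) θ i = 0 := by
      unfold jt
      refine Polynomial.coeff_eq_zero_of_natDegree_lt ?_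
      rw [Polynomial.natDegree_taylor]
      omega
    rw [this, abs_zero]
    exact hδ

theorem jt_dif {K : ℕ} {P Q : Polynomial ℝ} (hP : P.natDegree ≤ K) (hQ : Q.natDegree ≤ K)
    {θ δ : ℝ} (hθ : |θ| ≤ 1) (hδ : 0 ≤ δ) {a : ℕ}
    (h : ∀ i, a ≤ i → i ≤ K → |P.coeff i - Q.coeff i| ≤ δ) :
    |jt P θ a - jt Q θ a| ≤ 2 ^ (K + 1) * δ := by
  have h1 : (P - Q).natDegree ≤ K := (Polynomial.natDegree_sub_le _ _).trans (max_le hP hQ)
  rw [← jt_sub]
  refine jt_le h1 hθ hδ fun i hi => ?_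
  rcases le_or_gt i K with h2 | h2
  · rw [Polynomial.coeff_sub]
    exact h i hi h2
  · rw [Polynomial.coeff_eq_zero_of_natDegree_lt (by omega), abs_zero]
    exact hδ

/-! ### Integers which are near for equal conditions -/

theorem fl_abs (x y : ℝ) : |((⌊x⌋ : ℤ) : ℝ) - (⌊y⌋ : ℤ)| ≤ |x - y| + 1 := by
  have h1 := Int.floor_le x
  have h2 := Int.lt_floor_add_one x
  have h3 := Int.floor_le y
  have h4 := Int.lt_floor_add_one y
  have h5 := neg_abs_le (x - y)
  have h6 := le_abs_self (x - y)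
  rw [abs_le]
  constructor <;> linarith

theorem fl_mul {σ x y δ : ℝ} (hσ : 0 ≤ σ) (h : |x - y| ≤ δ) :
    |((⌊σ * x⌋ : ℤ) : ℝ) - (⌊σ * y⌋ : ℤ)| ≤ σ * δ + 1 := by
  have h1 := fl_abs (σ * x) (σ * y)
  rw [← mul_sub, abs_mul, abs_of_nonneg hσ] at h1
  have h2 := mul_le_mul_of_nonneg_left h hσ
  linarith

theorem of_fl {σ x y : ℝ} (hσ : 0 < σ) (h : ⌊σ * x⌋ = ⌊σ * y⌋) : |x - y| ≤ 1 / σ := by
  have h1 := (Int.abs_sub_lt_one_of_floor_eq_floor h).le
  rw [← mul_sub, abs_mul, abs_of_pos hσ] at h1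
  rw [le_div_iff₀ hσ]
  linarith

section ent

variable {Ω 𝓦 : Type} [Fintype Ω] {p : Ω → ℝ}

/-- Subadditivity for a finite family. -/
theorem CH_fam {ι S T : Type} [Fintype ι] (hp0 : ∀ ω, 0 ≤ p ω) (X : Ω → ι → S) (W : Ω → T) :
    CH p X W ≤ ∑ i, CH p (fun ω => X ω i) W := by
  classical
  have key : ∀ s : Finset ι, CH p (fun ω i => if i ∈ s then some (X ω i) else none) W ≤
      ∑ i ∈ s, CH p (fun ω => X ω i) W := by
    intro s
    induction s using Finset.induction_on with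
    | empty =>
      rw [Finset.sum_empty]
      refine le_of_eq (CH_eq_zero hp0 ?_)
      intro ω ω' _ _ _
      funext i
      simp
    | insert j s hj ih =>
      rw [Finset.sum_insert hj]
      have h1 : CH p (fun ω i => if i ∈ insert j s then some (X ω i) else none) W ≤
          CH p (fun ω => (X ω j, fun i => if i ∈ s then some (X ω i) else none)) W := by
        refine CH_mono_left hp0 ?_
        intro ω ω' _ _ h
        simp only [Prod.mk.injEq] at h
        funext i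
        by_cases hi : i = j
        · subst hi
          simp only [Finset.mem_insert_self, if_true]
          rw [h.1.1]
        · have h2 := congrFun h.1.2 i
          simp only [Finset.mem_insert, hi, false_or]
          exact h2
      have h3 := CH_subadd hp0 (fun ω => X ω j) (fun ω i => if i ∈ s then some (X ω i) else none) W
      linarith
  refine le_trans (CH_mono_left hp0 ?_) (key univ)
  intro ω ω' _ _ h
  simp only [Prod.mk.injEq] at h
  funext i
  have h2 := congrFun h.1 i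
  simp only [Finset.mem_univ, if_true, Option.some.injEq] at h2
  exact h2

/-- **Families of integers which are near for equal conditions.** -/
theorem CH_near {ι : Type} [Fintype ι] (hp : IsLaw p) (X : Ω → ι → ℤ) (W : Ω → 𝓦) {D : ℝ}
    (hD : 0 ≤ D) (h : ∀ ω ω', 0 < p ω → 0 < p ω' → W ω = W ω' → ∀ i,
      |(X ω i : ℝ) - X ω' i| ≤ D) :
    CH p X W ≤ Fintype.card ι * Real.log (2 * D + 1) := by
  refine (CH_fam hp.nonneg X W).trans ?_
  have h1 : ∀ i ∈ (univ : Finset ι), CH p (fun ω => X ω i) W ≤ Real.log (2 * D + 1) :=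
    fun i _ => CH_pair_int hp (fun ω => X ω i) W hD fun ω ω' a b e => h ω ω' a b e i
  refine (Finset.sum_le_sum h1).trans (le_of_eq ?_)
  rw [Finset.sum_const, Finset.card_univ, nsmul_eq_mul]

end ent

/-! ### The own paths -/

variable {Ω β : Type} {k : ℕ} (d : AD Ω β k) (K : ℕ)

/-- Digits of the jets of the target. -/
noncomputable def jn (ω : Ω) (a : Fin (K + 1)) : ℤ := ⌊(2 : ℝ) ^ d.X * jt (d.P ω) (d.th ω) a⌋

/-- Digits of the jets of the base coordinates. -/
noncomputable def ja (ω : Ω) (j : Fin k) (a : Fin (K + 1)) : ℤ :=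
  ⌊(2 : ℝ) ^ (d.X + d.m) * jt (d.A ω j) (d.th ω) a⌋

/-- The constant. -/
noncomputable def cJ (K : ℕ) : ℝ := Real.log (2 * (2 ^ (K + 1) + 1) + 1)

theorem cJ_nonneg (K : ℕ) : 0 ≤ cJ K := Real.log_nonneg (by
  have : (0 : ℝ) < 2 ^ (K + 1) := by positivity
  linarith)

variable {d K}

section pair

variable {ω ω' : Ω} (hth : 0 ≤ d.th ω ∧ d.th ω < 1) (hT : d.th ω = d.th ω')

include hth hT

theorem th_abs : |d.th ω| ≤ 1 := by
  have := hT
  rw [abs_of_nonneg hth.1]
  exact hth.2.le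

/-- Coefficients of the target from equal digits of the jets of order `≥ a`. -/
theorem co_jn (hP : (d.P ω).natDegree ≤ K) (hP' : (d.P ω').natDegree ≤ K) {a : ℕ}
    (h : ∀ i : Fin (K + 1), a ≤ (i : ℕ) → jn d K ω i = jn d K ω' i) :
    |(d.P ω).coeff a - (d.P ω').coeff a| ≤ 2 ^ (K + 1) * (1 / 2 ^ d.X) := by
  refine co_sub hP hP' (th_abs hth hT) (by positivity) (θ := d.th ω) fun i hi hK => ?_
  have h1 := h ⟨i, by omega⟩ hi
  unfold jn at h1
  rw [← hT] at h1
  exact of_fl (by positivity) h1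

theorem co_ja {j : Fin k} (hP : (d.A ω j).natDegree ≤ K) (hP' : (d.A ω' j).natDegree ≤ K) {a : ℕ}
    (h : ∀ i : Fin (K + 1), a ≤ (i : ℕ) → ja d K ω j i = ja d K ω' j i) :
    |(d.A ω j).coeff a - (d.A ω' j).coeff a| ≤ 2 ^ (K + 1) * (1 / 2 ^ (d.X + d.m)) := by
  refine co_sub hP hP' (th_abs hth hT) (by positivity) (θ := d.th ω) fun i hi hK => ?_
  have h1 := h ⟨i, by omega⟩ hi
  unfold ja at h1
  rw [← hT] at h1
  exact of_fl (by positivity) h1

theorem jn_co (hP : (d.P ω).natDegree ≤ K) (hP' : (d.P ω').natDegree ≤ K) {a : ℕ}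
    (h : ∀ i : Fin (K + 1), a ≤ (i : ℕ) → d.nc K ω i = d.nc K ω' i) :
    |jt (d.P ω) (d.th ω) a - jt (d.P ω') (d.th ω') a| ≤ 2 ^ (K + 1) * (1 / 2 ^ d.X) := by
  rw [← hT]
  refine jt_dif hP hP' (th_abs hth hT) (by positivity) fun i hi hK => ?_
  have h1 := h ⟨i, by omega⟩ hi
  unfold AD.nc at h1
  exact of_fl (by positivity) h1

theorem ja_co {j : Fin k} (hP : (d.A ω j).natDegree ≤ K) (hP' : (d.A ω' j).natDegree ≤ K) {a : ℕ}
    (h : ∀ i : Fin (K + 1), a ≤ (i : ℕ) → d.ac K ω j i = d.ac K ω' j i) :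
    |jt (d.A ω j) (d.th ω) a - jt (d.A ω' j) (d.th ω') a| ≤
      2 ^ (K + 1) * (1 / 2 ^ (d.X + d.m)) := by
  rw [← hT]
  refine jt_dif hP hP' (th_abs hth hT) (by positivity) fun i hi hK => ?_
  have h1 := h ⟨i, by omega⟩ hi
  unfold AD.ac at h1
  exact of_fl (by positivity) h1

/-- Integer parts: the coefficients of the target. -/
theorem nc_near {i : Fin (K + 1)} (h : d.nc K ω i / 2 ^ d.X = d.nc K ω' i / 2 ^ d.X) :
    |(d.P ω).coeff i - (d.P ω').coeff i| ≤ 1 := by
  have := hth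
  have := hT
  have e1 : ∀ o : Ω, d.nc K o i / 2 ^ d.X = ⌊(d.P o).coeff i⌋ := by
    intro o
    have h1 := Pool.AVG71.AD.nc_eq (d := d) (K := K) o i
    have h2 := Pool.AVG71.AD.nr_mem (d := d) (K := K) o i
    have h3 : (2 : ℝ) ^ d.X * (((d.nc K o i / 2 ^ d.X : ℤ)) : ℝ) + ((d.nr K o i : ℤ) : ℝ) =
        ((d.nc K o i : ℤ) : ℝ) := by
      conv_rhs => rw [h1]
      push_cast
      ring
    have h4 := Int.floor_le ((2 : ℝ) ^ d.X * (d.P o).coeff i)
    have h5 := Int.lt_floor_add_one ((2 : ℝ) ^ d.X * (d.P o).coeff i)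
    have h6 : ((⌊(2 : ℝ) ^ d.X * (d.P o).coeff i⌋ : ℤ) : ℝ) = ((d.nc K o i : ℤ) : ℝ) := rfl
    rw [h6] at h4 h5
    have p0 : (0 : ℝ) < 2 ^ d.X := by positivity
    have h7 : (0 : ℝ) ≤ ((d.nr K o i : ℤ) : ℝ) := by exact_mod_cast h2.1
    have h8 : ((d.nr K o i : ℤ) : ℝ) + 1 ≤ 2 ^ d.X := by
      have : d.nr K o i + 1 ≤ 2 ^ d.X := h2.2
      exact_mod_cast this
    symm
    rw [Int.floor_eq_iff]
    constructor
    · have : (2 : ℝ) ^ d.X * (((d.nc K o i / 2 ^ d.X : ℤ)) : ℝ) ≤ 2 ^ d.X * (d.P o).coeff i := by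
        linarith
      exact le_of_mul_le_mul_left this p0
    · have : (2 : ℝ) ^ d.X * (d.P o).coeff i <
          2 ^ d.X * ((((d.nc K o i / 2 ^ d.X : ℤ)) : ℝ) + 1) := by
        rw [mul_add, mul_one]
        linarith
      exact lt_of_mul_lt_mul_left this p0.le
  rw [e1, e1] at h
  exact (Int.abs_sub_lt_one_of_floor_eq_floor h).le

/-- Integer parts: the position of a base coordinate. -/
theorem ac_near {j : Fin k} (h : d.ac K ω j 0 / 2 ^ (d.X + d.m) = d.ac K ω' j 0 / 2 ^ (d.X + d.m)) :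
    |(d.A ω j).coeff 0 - (d.A ω' j).coeff 0| ≤ 1 := by
  have := hth
  have := hT
  have e1 : ∀ o : Ω, d.ac K o j 0 / 2 ^ (d.X + d.m) = ⌊(d.A o j).coeff 0⌋ := by
    intro o
    have p0 : (0 : ℝ) < 2 ^ (d.X + d.m) := by positivity
    have p1 : (0 : ℤ) < 2 ^ (d.X + d.m) := by positivity
    have h1 := Int.mul_ediv_add_emod (d.ac K o j 0) (2 ^ (d.X + d.m))
    have h2 := Int.emod_nonneg (d.ac K o j 0) p1.ne'
    have h2' := Int.emod_lt_of_pos (d.ac K o j 0) p1
    have h3 : (2 : ℝ) ^ (d.X + d.m) * (((d.ac K o j 0 / 2 ^ (d.X + d.m) : ℤ)) : ℝ) +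
        ((d.ac K o j 0 % 2 ^ (d.X + d.m) : ℤ) : ℝ) = ((d.ac K o j 0 : ℤ) : ℝ) := by
      exact_mod_cast h1
    have h4 := Int.floor_le ((2 : ℝ) ^ (d.X + d.m) * (d.A o j).coeff ((0 : Fin (K + 1)) : ℕ))
    have h5 := Int.lt_floor_add_one ((2 : ℝ) ^ (d.X + d.m) *
      (d.A o j).coeff ((0 : Fin (K + 1)) : ℕ))
    have h6 : ((⌊(2 : ℝ) ^ (d.X + d.m) * (d.A o j).coeff ((0 : Fin (K + 1)) : ℕ)⌋ : ℤ) : ℝ) =
      ((d.ac K o j 0 : ℤ) : ℝ) := rfl
    rw [h6] at h4 h5
    have h00 : ((0 : Fin (K + 1)) : ℕ) = 0 := rfl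
    rw [h00] at h4 h5
    have h7 : (0 : ℝ) ≤ ((d.ac K o j 0 % 2 ^ (d.X + d.m) : ℤ) : ℝ) := by exact_mod_cast h2
    have h8 : ((d.ac K o j 0 % 2 ^ (d.X + d.m) : ℤ) : ℝ) + 1 ≤ 2 ^ (d.X + d.m) := by
      have : d.ac K o j 0 % 2 ^ (d.X + d.m) + 1 ≤ 2 ^ (d.X + d.m) := h2'
      exact_mod_cast this
    symm
    rw [Int.floor_eq_iff]
    constructor
    · have : (2 : ℝ) ^ (d.X + d.m) * (((d.ac K o j 0 / 2 ^ (d.X + d.m) : ℤ)) : ℝ) ≤
          2 ^ (d.X + d.m) * (d.A o j).coeff 0 := by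
        linarith
      exact le_of_mul_le_mul_left this p0
    · have : (2 : ℝ) ^ (d.X + d.m) * (d.A o j).coeff 0 <
          2 ^ (d.X + d.m) * ((((d.ac K o j 0 / 2 ^ (d.X + d.m) : ℤ)) : ℝ) + 1) := by
        rw [mul_add, mul_one]
        linarith
      exact lt_of_mul_lt_mul_left this p0.le
  rw [e1, e1] at h
  exact (Int.abs_sub_lt_one_of_floor_eq_floor h).le

/-- **The jets of the target from the context.** -/
theorem jn_g (hP : (d.P ω).natDegree ≤ K) (hP' : (d.P ω').natDegree ≤ K) {a : ℕ}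
    (h : ∀ i : Fin (K + 1), a ≤ (i : ℕ) → d.nc K ω i / 2 ^ d.X = d.nc K ω' i / 2 ^ d.X) :
    |jt (d.P ω) (d.th ω) a - jt (d.P ω') (d.th ω') a| ≤ 2 ^ (K + 1) := by
  rw [← hT]
  have h1 := jt_dif hP hP' (th_abs hth hT) zero_le_one (θ := d.th ω) (a := a) fun i hi hK =>
    nc_near hth hT (h ⟨i, by omega⟩ hi)
  rwa [mul_one] at h1

/-- **The jets of the base coordinates from the context.** -/
theorem ja_g {j : Fin k} (hP : (d.A ω j).natDegree ≤ K) (hP' : (d.A ω' j).natDegree ≤ K)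
    (h : d.va K ω = d.va K ω') :
    |(d.A ω j).eval (d.th ω) - (d.A ω' j).eval (d.th ω')| ≤ 2 ^ (K + 1) ∧ ∀ a, 1 ≤ a →
      |jt (d.A ω j) (d.th ω) a - jt (d.A ω' j) (d.th ω') a| ≤
        2 ^ (K + 1) * (1 / 2 ^ (d.X + d.m)) := by
  obtain ⟨h1, h2⟩ := Prod.ext_iff.mp h
  have h1' : ∀ a : Fin K, d.ac K ω j a.succ = d.ac K ω' j a.succ := fun a =>
    congrFun (congrFun h1 j) a
  have h2' : d.ac K ω j 0 / 2 ^ (d.X + d.m) = d.ac K ω' j 0 / 2 ^ (d.X + d.m) :=
    congrFun (Prod.ext_iff.mp h2).1 j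
  have hs : ∀ i : Fin (K + 1), 1 ≤ (i : ℕ) → d.ac K ω j i = d.ac K ω' j i := by
    intro i hi
    have h3 := h1' ⟨i - 1, by omega⟩
    have h4 : (⟨(i : ℕ) - 1, by omega⟩ : Fin K).succ = i := Fin.ext (by simp; omega)
    rwa [h4] at h3
  constructor
  · rw [← jt_zero, ← jt_zero, ← hT]
    have h5 := jt_dif hP hP' (th_abs hth hT) zero_le_one (θ := d.th ω) (a := 0) fun i _ hK => ?_
    · rwa [mul_one] at h5
    · rcases Nat.eq_zero_or_pos i with h6 | h6
      · rw [h6]
        exact ac_near hth hT h2'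
      · have h7 := hs ⟨i, by omega⟩ h6
        unfold AD.ac at h7
        have h8 := of_fl (by positivity) h7
        refine h8.trans ?_
        rw [div_le_one (by positivity)]
        exact one_le_pow₀ (by norm_num)
  · intro a ha
    exact ja_co hth hT hP hP' fun i hi => hs i (ha.trans hi)

end pair

section law

variable [Fintype Ω] {p : Ω → ℝ}

/-- The hypotheses on the paths. -/
structure Pth (d : AD Ω β k) (K : ℕ) (p : Ω → ℝ) : Prop where
  law : IsLaw p
  th : ∀ ω, 0 < p ω → 0 ≤ d.th ω ∧ d.th ω < 1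
  dP : ∀ ω, 0 < p ω → (d.P ω).natDegree ≤ K
  dA : ∀ ω, 0 < p ω → ∀ j, (d.A ω j).natDegree ≤ K

theorem pair_near {K : ℕ} {X : ℕ} {x y : ℝ} (h : |x - y| ≤ 2 ^ (K + 1) * (1 / 2 ^ X)) :
    |((⌊(2 : ℝ) ^ X * x⌋ : ℤ) : ℝ) - (⌊(2 : ℝ) ^ X * y⌋ : ℤ)| ≤ 2 ^ (K + 1) + 1 := by
  have p0 : (0 : ℝ) < 2 ^ X := by positivity
  have h1 := fl_mul p0.le h
  refine h1.trans (le_of_eq ?_)
  field_simp

theorem c_pos (K : ℕ) : (0 : ℝ) ≤ 2 ^ (K + 1) + 1 := by positivity

/-- **The code of the line from the jets at the time.** -/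
theorem L_jet (H : Pth d K p) :
    CH p (d.L K) (fun ω => ((ja d K ω, jn d K ω), (d.th ω, d.z ω))) ≤
      (k + 1) * (K + 1) * cJ K := by
  have h0 := H.law.nonneg
  obtain ⟨W, hW⟩ : ∃ W, W = fun ω => ((ja d K ω, jn d K ω), (d.th ω, d.z ω)) := ⟨_, rfl⟩
  rw [← hW]
  obtain ⟨X, hX⟩ : ∃ X : Ω → (Fin k × Fin (K + 1)) ⊕ Fin (K + 1) → ℤ, X = fun ω i =>
    Sum.elim (fun ja : Fin k × Fin (K + 1) => d.ac K ω ja.1 ja.2) (d.nc K ω) i := ⟨_, rfl⟩
  have h1 : CH p (d.L K) W ≤ CH p X W := by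
    refine CH_mono_left h0 fun ω ω' _ _ e => ?_
    obtain ⟨e1, e2⟩ := Prod.ext_iff.mp e
    rw [hW] at e2
    simp only [Prod.mk.injEq] at e2
    rw [hX] at e1
    unfold AD.L
    refine Prod.ext e2.2.2 (Prod.ext ?_ ?_)
    · funext j a
      exact congrFun e1 (Sum.inl (j, a))
    · funext a
      exact congrFun e1 (Sum.inr a)
  have h2 := CH_near H.law X W (c_pos K) fun ω ω' hω hω' e i => by
    rw [hW] at e
    simp only [Prod.mk.injEq] at e
    have hT : d.th ω = d.th ω' := e.2.1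
    rw [hX]
    cases i with
    | inl ja' =>
      exact pair_near (co_ja (H.th ω hω) hT (H.dA ω hω _) (H.dA ω' hω' _) fun i _ =>
        congrFun (congrFun e.1.1 _) i)
    | inr a =>
      exact pair_near (co_jn (H.th ω hω) hT (H.dP ω hω) (H.dP ω' hω') fun i _ =>
        congrFun e.1.2 i)
  refine h1.trans (h2.trans (le_of_eq ?_))
  rw [Fintype.card_sum, Fintype.card_prod, Fintype.card_fin, Fintype.card_fin]
  push_cast
  unfold cJ
  ring

/-- **The jets at the time from the code of the line.** -/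
theorem jet_L (H : Pth d K p) :
    CH p (fun ω => (ja d K ω, jn d K ω)) (fun ω => (d.th ω, d.L K ω)) ≤
      (k + 1) * (K + 1) * cJ K := by
  have h0 := H.law.nonneg
  obtain ⟨X, hX⟩ : ∃ X : Ω → (Fin k × Fin (K + 1)) ⊕ Fin (K + 1) → ℤ, X = fun ω i =>
    Sum.elim (fun x : Fin k × Fin (K + 1) => ja d K ω x.1 x.2) (jn d K ω) i := ⟨_, rfl⟩
  have h1 : CH p (fun ω => (ja d K ω, jn d K ω)) (fun ω => (d.th ω, d.L K ω)) ≤
      CH p X (fun ω => (d.th ω, d.L K ω)) := by
    refine CH_mono_left h0 fun ω ω' _ _ e => ?_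
    obtain ⟨e1, e2⟩ := Prod.ext_iff.mp e
    rw [hX] at e1
    refine Prod.ext ?_ ?_
    · funext j a
      exact congrFun e1 (Sum.inl (j, a))
    · funext a
      exact congrFun e1 (Sum.inr a)
  have h2 := CH_near H.law X (fun ω => (d.th ω, d.L K ω)) (c_pos K) fun ω ω' hω hω' e i => by
    simp only [Prod.mk.injEq] at e
    have hT : d.th ω = d.th ω' := e.1
    have e2 := e.2
    unfold AD.L at e2
    simp only [Prod.mk.injEq] at e2
    rw [hX]
    cases i with
    | inl x =>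
      exact pair_near (ja_co (H.th ω hω) hT (H.dA ω hω _) (H.dA ω' hω' _) fun i _ =>
        congrFun (congrFun e2.2.1 _) i)
    | inr a =>
      exact pair_near (jn_co (H.th ω hω) hT (H.dP ω hω) (H.dP ω' hω') fun i _ =>
        congrFun e2.2.2 i)
  refine h1.trans (h2.trans (le_of_eq ?_))
  rw [Fintype.card_sum, Fintype.card_prod, Fintype.card_fin, Fintype.card_fin]
  push_cast
  unfold cJ
  ring

/-- The line without the position of the target, from the jets of the target of order `≥ 1`. -/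
theorem l_jet (H : Pth d K p) :
    CH p (d.l K) (fun ω => ((ja d K ω, fun a : Fin K => jn d K ω a.succ), (d.th ω, d.z ω))) ≤
      (k + 1) * (K + 1) * cJ K := by
  have h0 := H.law.nonneg
  obtain ⟨W, hW⟩ : ∃ W, W = fun ω => ((ja d K ω, fun a : Fin K => jn d K ω a.succ),
    (d.th ω, d.z ω)) := ⟨_, rfl⟩
  rw [← hW]
  obtain ⟨X, hX⟩ : ∃ X : Ω → (Fin k × Fin (K + 1)) ⊕ Fin K → ℤ, X = fun ω i =>
    Sum.elim (fun x : Fin k × Fin (K + 1) => d.ac K ω x.1 x.2) (fun a => d.nc K ω a.succ) i :=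
    ⟨_, rfl⟩
  have h1 : CH p (d.l K) W ≤ CH p X W := by
    refine CH_mono_left h0 fun ω ω' _ _ e => ?_
    obtain ⟨e1, e2⟩ := Prod.ext_iff.mp e
    rw [hX] at e1
    unfold AD.l
    refine Prod.ext ?_ ?_
    · funext j a
      exact congrFun e1 (Sum.inl (j, a))
    · funext a
      exact congrFun e1 (Sum.inr a)
  have h2 := CH_near H.law X W (c_pos K) fun ω ω' hω hω' e i => by
    rw [hW] at e
    simp only [Prod.mk.injEq] at e
    have hT : d.th ω = d.th ω' := e.2.1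
    rw [hX]
    cases i with
    | inl x =>
      exact pair_near (co_ja (H.th ω hω) hT (H.dA ω hω _) (H.dA ω' hω' _) fun i _ =>
        congrFun (congrFun e.1.1 _) i)
    | inr a =>
      refine pair_near (co_jn (H.th ω hω) hT (H.dP ω hω) (H.dP ω' hω') (a := (a.succ : ℕ))
        fun i hi => ?_)
      have h3 := congrFun e.1.2 ⟨i - 1, by
        rw [Fin.val_succ] at hi
        omega⟩
      have h4 : (⟨(i : ℕ) - 1, by rw [Fin.val_succ] at hi; omega⟩ : Fin K).succ = i :=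
        Fin.ext (by rw [Fin.val_succ] at hi; simp; omega)
      rwa [h4] at h3
  refine h1.trans (h2.trans ?_)
  rw [Fintype.card_sum, Fintype.card_prod, Fintype.card_fin, Fintype.card_fin, Fintype.card_fin]
  push_cast
  have h3 := cJ_nonneg K
  unfold cJ at h3 ⊢
  have h4 : ((k : ℝ) * (K + 1) + K) ≤ (k + 1) * (K + 1) := by
    have : (0 : ℝ) ≤ k := Nat.cast_nonneg k
    linarith
  exact mul_le_mul_of_nonneg_right h4 h3

/-- The jets of order `≥ 1` of the target from the line without the position of the target. -/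
theorem jet_l (H : Pth d K p) :
    CH p (fun ω => (ja d K ω, fun a : Fin K => jn d K ω a.succ)) (fun ω => (d.th ω, d.l K ω)) ≤
      (k + 1) * (K + 1) * cJ K := by
  have h0 := H.law.nonneg
  obtain ⟨X, hX⟩ : ∃ X : Ω → (Fin k × Fin (K + 1)) ⊕ Fin K → ℤ, X = fun ω i =>
    Sum.elim (fun x : Fin k × Fin (K + 1) => ja d K ω x.1 x.2) (fun a => jn d K ω a.succ) i :=
    ⟨_, rfl⟩
  have h1 : CH p (fun ω => (ja d K ω, fun a : Fin K => jn d K ω a.succ))
      (fun ω => (d.th ω, d.l K ω)) ≤ CH p X (fun ω => (d.th ω, d.l K ω)) := by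
    refine CH_mono_left h0 fun ω ω' _ _ e => ?_
    obtain ⟨e1, e2⟩ := Prod.ext_iff.mp e
    rw [hX] at e1
    refine Prod.ext ?_ ?_
    · funext j a
      exact congrFun e1 (Sum.inl (j, a))
    · funext a
      exact congrFun e1 (Sum.inr a)
  have h2 := CH_near H.law X (fun ω => (d.th ω, d.l K ω)) (c_pos K) fun ω ω' hω hω' e i => by
    simp only [Prod.mk.injEq] at e
    have hT : d.th ω = d.th ω' := e.1
    have e2 := e.2
    unfold AD.l at e2
    simp only [Prod.mk.injEq] at e2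
    rw [hX]
    cases i with
    | inl x =>
      exact pair_near (ja_co (H.th ω hω) hT (H.dA ω hω _) (H.dA ω' hω' _) fun i _ =>
        congrFun (congrFun e2.1 _) i)
    | inr a =>
      refine pair_near (jn_co (H.th ω hω) hT (H.dP ω hω) (H.dP ω' hω') (a := (a.succ : ℕ))
        fun i hi => ?_)
      have h3 := congrFun e2.2 ⟨i - 1, by
        rw [Fin.val_succ] at hi
        omega⟩
      have h4 : (⟨(i : ℕ) - 1, by rw [Fin.val_succ] at hi; omega⟩ : Fin K).succ = i :=
        Fin.ext (by rw [Fin.val_succ] at hi; simp; omega)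
      rwa [h4] at h3
  refine h1.trans (h2.trans ?_)
  rw [Fintype.card_sum, Fintype.card_prod, Fintype.card_fin, Fintype.card_fin, Fintype.card_fin]
  push_cast
  have h3 := cJ_nonneg K
  unfold cJ at h3 ⊢
  have h4 : ((k : ℝ) * (K + 1) + K) ≤ (k + 1) * (K + 1) := by
    have : (0 : ℝ) ≤ k := Nat.cast_nonneg k
    linarith
  exact mul_le_mul_of_nonneg_right h4 h3

/-- The position of the target from its height at the time and the other coefficients. -/
theorem nc0_few (H : Pth d K p) :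
    CH p (fun ω => d.nc K ω 0) (fun ω => ((⌊(2 : ℝ) ^ d.X * (d.P ω).eval (d.th ω)⌋,
      fun a : Fin K => d.nc K ω a.succ), d.th ω)) ≤ cJ K := by
  refine CH_pair_int H.law _ _ (c_pos K) fun ω ω' hω hω' e => ?_
  simp only [Prod.mk.injEq] at e
  have hT : d.th ω = d.th ω' := e.2
  have h1 := of_fl (by positivity) e.1.1
  have hθ : |d.th ω| ≤ 1 := th_abs (H.th ω hω) hT
  have hc : ∀ a : Fin K, |(d.P ω).coeff (a + 1) - (d.P ω').coeff (a + 1)| ≤ 1 / 2 ^ d.X := by
    intro a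
    have h2 := congrFun e.1.2 a
    unfold AD.nc at h2
    exact of_fl (by positivity) h2
  have hev : ∀ o, 0 < p o → (d.P o).eval (d.th o) = (d.P o).coeff 0 +
      ∑ a : Fin K, (d.P o).coeff (a + 1) * d.th o ^ ((a : ℕ) + 1) := by
    intro o ho
    rw [Polynomial.eval_eq_sum_range' (n := K + 1) (by have := H.dP o ho; omega),
      Finset.sum_range_succ']
    rw [pow_zero, mul_one, add_comm]
    congr 1
    rw [Finset.sum_range]
  have h3 : (d.P ω).coeff 0 - (d.P ω').coeff 0 = ((d.P ω).eval (d.th ω) -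
      (d.P ω').eval (d.th ω')) - ∑ a : Fin K,
        ((d.P ω).coeff (a + 1) - (d.P ω').coeff (a + 1)) * d.th ω ^ ((a : ℕ) + 1) := by
    rw [hev ω hω, hev ω' hω', ← hT]
    have : ∑ a : Fin K, ((d.P ω).coeff (a + 1) - (d.P ω').coeff (a + 1)) * d.th ω ^ ((a : ℕ) + 1) =
        ∑ a : Fin K, (d.P ω).coeff (a + 1) * d.th ω ^ ((a : ℕ) + 1) -
        ∑ a : Fin K, (d.P ω').coeff (a + 1) * d.th ω ^ ((a : ℕ) + 1) := by
      rw [← Finset.sum_sub_distrib]
      exact Finset.sum_congr rfl fun a _ => by ring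
    rw [this]
    ring
  have h4 : |∑ a : Fin K, ((d.P ω).coeff (a + 1) - (d.P ω').coeff (a + 1)) *
      d.th ω ^ ((a : ℕ) + 1)| ≤ K * (1 / 2 ^ d.X) := by
    refine (Finset.abs_sum_le_sum_abs _ _).trans ?_
    have : ∀ a ∈ (univ : Finset (Fin K)), |((d.P ω).coeff (a + 1) - (d.P ω').coeff (a + 1)) *
        d.th ω ^ ((a : ℕ) + 1)| ≤ 1 / 2 ^ d.X := by
      intro a _
      rw [abs_mul, abs_pow]
      calc _ ≤ (1 / (2 : ℝ) ^ d.X) * 1 := mul_le_mul (hc a)
            (pow_le_one₀ (abs_nonneg _) hθ) (by positivity) (by positivity)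
        _ = _ := mul_one _
    refine (Finset.sum_le_sum this).trans (le_of_eq ?_)
    rw [Finset.sum_const, Finset.card_univ, Fintype.card_fin, nsmul_eq_mul]
  have h5 : |(d.P ω).coeff 0 - (d.P ω').coeff 0| ≤ (K + 1) * (1 / 2 ^ d.X) := by
    rw [h3]
    refine (abs_sub _ _).trans ?_
    linarith
  have h6 : ((K : ℝ) + 1) ≤ 2 ^ (K + 1) := by
    have : K + 1 < 2 ^ (K + 1) := Nat.lt_two_pow_self
    exact_mod_cast this.le
  refine pair_near (h5.trans ?_)
  exact mul_le_mul_of_nonneg_right h6 (by positivity)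

/-- **The code of a base coordinate** whose coefficients of order `≥ 2` are functions of `z`, from
its height and its velocity at the time. -/
theorem ac_few (H : Pth d K p) (j : Fin k) (hz : ∀ ω ω', 0 < p ω → 0 < p ω' → d.z ω = d.z ω' →
      ∀ a, 2 ≤ a → (d.A ω j).coeff a = (d.A ω' j).coeff a) :
    CH p (fun ω => d.ac K ω j) (fun ω => ((⌊(2 : ℝ) ^ (d.X + d.m) * (d.A ω j).eval (d.th ω)⌋,
      ⌊(2 : ℝ) ^ (d.X + d.m) * (d.A ω j).derivative.eval (d.th ω)⌋), (d.th ω, d.z ω))) ≤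
      (K + 1) * cJ K := by
  have h1 := CH_near H.law (d.ac K · j) (fun ω => ((⌊(2 : ℝ) ^ (d.X + d.m) *
    (d.A ω j).eval (d.th ω)⌋, ⌊(2 : ℝ) ^ (d.X + d.m) * (d.A ω j).derivative.eval (d.th ω)⌋),
      (d.th ω, d.z ω))) (c_pos K) fun ω ω' hω hω' e i => by
    simp only [Prod.mk.injEq] at e
    have hT : d.th ω = d.th ω' := e.2.1
    have hθ : |d.th ω| ≤ 1 := th_abs (H.th ω hω) hT
    have e1 := of_fl (by positivity) e.1.1
    have e2 := of_fl (by positivity) e.1.2
    have e3 := hz ω ω' hω hω' e.2.2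
    have e0 : (0 : ℝ) < 2 ^ (d.X + d.m) := by positivity
    obtain ⟨D, hD⟩ : ∃ D, D = d.A ω j - d.A ω' j := ⟨_, rfl⟩
    have d2 : ∀ a, 2 ≤ a → D.coeff a = 0 := fun a ha => by
      rw [hD, Polynomial.coeff_sub, e3 a ha, sub_self]
    have dD : D = Polynomial.C (D.coeff 0) + Polynomial.C (D.coeff 1) * Polynomial.X := by
      ext a
      rw [Polynomial.coeff_add, Polynomial.coeff_C, Polynomial.coeff_C_mul, Polynomial.coeff_X]
      rcases a with _ | _ | a
      · simp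
      · simp
      · rw [d2 (a + 2) (by omega)]
        simp
    have f1 : |D.coeff 1| ≤ 1 / 2 ^ (d.X + d.m) := by
      have h3 : D.derivative.eval (d.th ω) = D.coeff 1 := by
        rw [dD]
        simp
      rw [← h3, hD, Polynomial.derivative_sub, Polynomial.eval_sub]
      rw [← hT] at e2
      exact e2
    have f0 : |D.coeff 0| ≤ 2 * (1 / 2 ^ (d.X + d.m)) := by
      have h3 : D.coeff 0 = D.eval (d.th ω) - D.coeff 1 * d.th ω := by
        conv_rhs => rw [dD]
        simp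
      have h4 : |D.eval (d.th ω)| ≤ 1 / 2 ^ (d.X + d.m) := by
        rw [hD, Polynomial.eval_sub]
        rw [← hT] at e1
        exact e1
      rw [h3]
      refine (abs_sub _ _).trans ?_
      rw [abs_mul]
      have h5 : |D.coeff 1| * |d.th ω| ≤ 1 / 2 ^ (d.X + d.m) * 1 :=
        mul_le_mul f1 hθ (abs_nonneg _) (by positivity)
      linarith
    have f : |(d.A ω j).coeff i - (d.A ω' j).coeff i| ≤ 2 ^ (K + 1) * (1 / 2 ^ (d.X + d.m)) := by
      have h2K : (2 : ℝ) ≤ 2 ^ (K + 1) := by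
        have := one_le_pow₀ (n := K) (one_le_two (α := ℝ))
        rw [pow_succ]
        linarith
      have h3 : (d.A ω j).coeff i - (d.A ω' j).coeff i = D.coeff i := by
        rw [hD, Polynomial.coeff_sub]
      rw [h3]
      have p1 : (0 : ℝ) ≤ 1 / 2 ^ (d.X + d.m) := by positivity
      have h4 : |D.coeff i| ≤ 2 * (1 / 2 ^ (d.X + d.m)) := by
        rcases Nat.lt_or_ge (i : ℕ) 2 with h5 | h5
        · rcases Nat.lt_or_ge (i : ℕ) 1 with h6 | h6
          · have : (i : ℕ) = 0 := by omega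
            rw [this]
            exact f0
          · have : (i : ℕ) = 1 := by omega
            rw [this]
            linarith
        · rw [d2 _ h5, abs_zero]
          positivity
      exact h4.trans (mul_le_mul_of_nonneg_right h2K p1)
    exact pair_near f
  refine h1.trans (le_of_eq ?_)
  rw [Fintype.card_fin]
  push_cast
  unfold cJ
  ring

/-! ### Natural digits -/

/-- The jets of the own paths: `none` is the target. -/
noncomputable def jj (d : AD Ω β k) (ω : Ω) (o : Option (Fin k)) (a : ℕ) : ℝ :=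
  o.elim (jt (d.P ω) (d.th ω) a) fun j => jt (d.A ω j) (d.th ω) a

/-- **Natural digits of the jets are few given the context.** `kd i`: the coordinate and the order,
`τ i`: the scale. -/
theorem nat_g (H : Pth d K p) {ι : Type} [Fintype ι] (kd : ι → Option (Fin k) × ℕ) (τ : ι → ℝ)
    (h0 : ∀ i, 0 ≤ τ i) (h1 : ∀ i, τ i ≤ 1 ∨ ((kd i).1 ≠ none ∧ 1 ≤ (kd i).2 ∧
      τ i ≤ 2 ^ (d.X + d.m))) :
    CH p (fun ω i => ⌊τ i * jj d ω (kd i).1 (kd i).2⌋) (fun ω => (d.th ω, d.g K ω)) ≤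
      Fintype.card ι * cJ K := by
  refine CH_near H.law _ _ (c_pos K) fun ω ω' hω hω' e i => ?_
  simp only [Prod.mk.injEq] at e
  have hT : d.th ω = d.th ω' := e.1
  have e2 := e.2
  unfold AD.g at e2
  simp only [Prod.mk.injEq] at e2
  have key : |τ i * jj d ω (kd i).1 (kd i).2 - τ i * jj d ω' (kd i).1 (kd i).2| ≤ 2 ^ (K + 1) := by
    rw [← mul_sub, abs_mul, abs_of_nonneg (h0 i)]
    have p0 : (0 : ℝ) < 2 ^ (K + 1) := by positivity
    cases hk : (kd i).1 with
    | none =>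
      have h3 : τ i ≤ 1 := (h1 i).resolve_right fun h => h.1 hk
      have h4 := jn_g (H.th ω hω) hT (H.dP ω hω) (H.dP ω' hω') (a := (kd i).2) fun i _ =>
        congrFun e2.2.2 i
      calc τ i * |jj d ω none (kd i).2 - jj d ω' none (kd i).2| ≤ 1 * 2 ^ (K + 1) :=
            mul_le_mul h3 h4 (abs_nonneg _) zero_le_one
        _ = _ := one_mul _
    | some j =>
      obtain ⟨h4, h5⟩ := ja_g (H.th ω hω) hT (H.dA ω hω j) (H.dA ω' hω' j) e2.2.1
      rcases h1 i with h3 | ⟨-, h6, h3⟩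
      · have h7 : |jj d ω (some j) (kd i).2 - jj d ω' (some j) (kd i).2| ≤ 2 ^ (K + 1) := by
          rcases Nat.eq_zero_or_pos (kd i).2 with h8 | h8
          · rw [h8]
            have h9 : ∀ o, jj d o (some j) 0 = (d.A o j).eval (d.th o) := fun o => jt_zero _ _
            rw [h9, h9]
            exact h4
          · refine (h5 _ h8).trans (mul_le_of_le_one_right p0.le ?_)
            rw [div_le_one (by positivity)]
            exact one_le_pow₀ (by norm_num)
        calc τ i * |jj d ω (some j) (kd i).2 - jj d ω' (some j) (kd i).2| ≤ 1 * 2 ^ (K + 1) :=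
              mul_le_mul h3 h7 (abs_nonneg _) zero_le_one
          _ = _ := one_mul _
      · have h7 := h5 _ h6
        calc τ i * |jj d ω (some j) (kd i).2 - jj d ω' (some j) (kd i).2| ≤
            2 ^ (d.X + d.m) * (2 ^ (K + 1) * (1 / 2 ^ (d.X + d.m))) :=
              mul_le_mul h3 h7 (abs_nonneg _) (by positivity)
          _ = _ := by field_simp
  have h2 := fl_abs (τ i * jj d ω (kd i).1 (kd i).2) (τ i * jj d ω' (kd i).1 (kd i).2)
  linarith

/-- Natural digits of the jets, without the position of the target. -/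
theorem nat_w (H : Pth d K p) {ι : Type} [Fintype ι] (kd : ι → Option (Fin k) × ℕ) (τ : ι → ℝ)
    (h0 : ∀ i, 0 ≤ τ i) (h1 : ∀ i, τ i ≤ 1 ∨ ((kd i).1 ≠ none ∧ 1 ≤ (kd i).2 ∧
      τ i ≤ 2 ^ (d.X + d.m))) (h2 : ∀ i, (kd i).1 = none → 1 ≤ (kd i).2) :
    CH p (fun ω i => ⌊τ i * jj d ω (kd i).1 (kd i).2⌋) (fun ω => (d.th ω, d.w K ω)) ≤
      Fintype.card ι * cJ K := by
  refine CH_near H.law _ _ (c_pos K) fun ω ω' hω hω' e i => ?_
  simp only [Prod.mk.injEq] at e
  have hT : d.th ω = d.th ω' := e.1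
  have e2 := e.2
  unfold AD.w at e2
  simp only [Prod.mk.injEq] at e2
  have key : |τ i * jj d ω (kd i).1 (kd i).2 - τ i * jj d ω' (kd i).1 (kd i).2| ≤ 2 ^ (K + 1) := by
    rw [← mul_sub, abs_mul, abs_of_nonneg (h0 i)]
    have p0 : (0 : ℝ) < 2 ^ (K + 1) := by positivity
    cases hk : (kd i).1 with
    | none =>
      have h3 : τ i ≤ 1 := (h1 i).resolve_right fun h => h.1 hk
      have h4 := jn_g (H.th ω hω) hT (H.dP ω hω) (H.dP ω' hω') (a := (kd i).2) fun l hl => by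
        have h5 := h2 i hk
        have h6 := congrFun e2.2.2 ⟨l - 1, by omega⟩
        have h7 : (⟨(l : ℕ) - 1, by omega⟩ : Fin K).succ = l := Fin.ext (by simp; omega)
        rwa [h7] at h6
      calc τ i * |jj d ω none (kd i).2 - jj d ω' none (kd i).2| ≤ 1 * 2 ^ (K + 1) :=
            mul_le_mul h3 h4 (abs_nonneg _) zero_le_one
        _ = _ := one_mul _
    | some j =>
      obtain ⟨h4, h5⟩ := ja_g (H.th ω hω) hT (H.dA ω hω j) (H.dA ω' hω' j) e2.2.1
      rcases h1 i with h3 | ⟨-, h6, h3⟩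
      · have h7 : |jj d ω (some j) (kd i).2 - jj d ω' (some j) (kd i).2| ≤ 2 ^ (K + 1) := by
          rcases Nat.eq_zero_or_pos (kd i).2 with h8 | h8
          · rw [h8]
            have h9 : ∀ o, jj d o (some j) 0 = (d.A o j).eval (d.th o) := fun o => jt_zero _ _
            rw [h9, h9]
            exact h4
          · refine (h5 _ h8).trans (mul_le_of_le_one_right p0.le ?_)
            rw [div_le_one (by positivity)]
            exact one_le_pow₀ (by norm_num)
        calc τ i * |jj d ω (some j) (kd i).2 - jj d ω' (some j) (kd i).2| ≤ 1 * 2 ^ (K + 1) :=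
              mul_le_mul h3 h7 (abs_nonneg _) zero_le_one
          _ = _ := one_mul _
      · have h7 := h5 _ h6
        calc τ i * |jj d ω (some j) (kd i).2 - jj d ω' (some j) (kd i).2| ≤
            2 ^ (d.X + d.m) * (2 ^ (K + 1) * (1 / 2 ^ (d.X + d.m))) :=
              mul_le_mul h3 h7 (abs_nonneg _) (by positivity)
          _ = _ := by field_simp
  have h2 := fl_abs (τ i * jj d ω (kd i).1 (kd i).2) (τ i * jj d ω' (kd i).1 (kd i).2)
  linarith

end law

end Pool.AVG5
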