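import Pool.Agent.H5.AVG.Jet

/-!
# The fields `Lj`, `Lx` from far digits

`bA`: far digits of the base coordinates, `bN`: far digits of the target. From the code of the base
coordinates given `bA`, the higher coefficients of the target given `bA` and the height of the target
given `bN`: the code of the line is few bits (`Lj_of`), the code without the position of the target is
few bits given `bA` alone (`Lx_of`).
-/

set_option autoImplicit false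

namespace Pool.AVG5

open Finset Real
open Pool.Agent.H49.Ent Pool.Agent.H32.Dense Pool.STK Pool.K2S Pool.KAF Pool.M5 Pool.SLO Pool.BFL
open Pool.MIC Pool.TIE Pool.D2Hz Pool.OWN68 Pool.AVG71
open Pool.KVA (MI)

variable {Ω β : Type} [Fintype Ω] {k K : ℕ} {d : AD Ω β k} {p : Ω → ℝ} {σ₁ σ₂ ν : Type}

/-- **The field `Lx`.** -/
theorem Lx_of (h0 : ∀ ω, 0 ≤ p ω) {bA : Ω → σ₁} {n : Ω → ν} {e₁ e₂ : ℝ}
    (hac : CH p (d.ac K) (fun ω => (bA ω, (d.th ω, d.z ω))) ≤ e₁)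
    (hnc : CH p (fun ω (a : Fin K) => d.nc K ω a.succ) (fun ω => (bA ω, (d.th ω, d.z ω))) ≤ e₂) :
    CH p (d.l K) (fun ω => (bA ω, (n ω, (d.th ω, d.z ω)))) ≤ e₁ + e₂ := by
  have h1 := CH_subadd h0 (d.ac K) (fun ω (a : Fin K) => d.nc K ω a.succ)
    (fun ω => (bA ω, (n ω, (d.th ω, d.z ω))))
  have h2 : CH p (d.ac K) (fun ω => (bA ω, (n ω, (d.th ω, d.z ω)))) ≤
      CH p (d.ac K) (fun ω => (bA ω, (d.th ω, d.z ω))) := CH_mono_cond h0 fun ω ω' _ _ e => by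
    simp only [Prod.mk.injEq] at e ⊢
    tauto
  have h3 : CH p (fun ω (a : Fin K) => d.nc K ω a.succ)
      (fun ω => (bA ω, (n ω, (d.th ω, d.z ω)))) ≤
      CH p (fun ω (a : Fin K) => d.nc K ω a.succ) (fun ω => (bA ω, (d.th ω, d.z ω))) :=
    CH_mono_cond h0 fun ω ω' _ _ e => by
      simp only [Prod.mk.injEq] at e ⊢
      tauto
  have h4 : d.l K = fun ω => (d.ac K ω, fun a : Fin K => d.nc K ω a.succ) := rfl
  rw [h4]
  linarith

/-- **The field `Lj`.** -/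
theorem Lj_of (H : Pth d K p) {bA : Ω → σ₁} {bN : Ω → σ₂} {n : Ω → ν} {e₁ e₂ e₃ : ℝ}
    (hac : CH p (d.ac K) (fun ω => (bA ω, (d.th ω, d.z ω))) ≤ e₁)
    (hnc : CH p (fun ω (a : Fin K) => d.nc K ω a.succ) (fun ω => (bA ω, (d.th ω, d.z ω))) ≤ e₂)
    (hN : CH p (fun ω => ⌊(2 : ℝ) ^ d.X * (d.P ω).eval (d.th ω)⌋)
      (fun ω => ((bA ω, bN ω), (n ω, (d.th ω, d.z ω)))) ≤ e₃) :
    CH p (d.L K) (fun ω => ((bA ω, bN ω), (n ω, (d.th ω, d.z ω)))) ≤ e₁ + e₂ + e₃ + cJ K := by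
  have h0 := H.law.nonneg
  obtain ⟨W, hW⟩ : ∃ W, W = fun ω => ((bA ω, bN ω), (n ω, (d.th ω, d.z ω))) := ⟨_, rfl⟩
  rw [← hW] at hN ⊢
  obtain ⟨V, hV⟩ : ∃ V : Ω → ℤ, V = fun ω => ⌊(2 : ℝ) ^ d.X * (d.P ω).eval (d.th ω)⌋ := ⟨_, rfl⟩
  rw [← hV] at hN
  obtain ⟨C, hC⟩ : ∃ C : Ω → Fin K → ℤ, C = fun ω a => d.nc K ω a.succ := ⟨_, rfl⟩
  obtain ⟨N0, hN0⟩ : ∃ N0 : Ω → ℤ, N0 = fun ω => d.nc K ω 0 := ⟨_, rfl⟩
  -- the parts
  have hl : CH p (d.ac K) W ≤ e₁ := by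
    refine le_trans (CH_mono_cond h0 fun ω ω' _ _ e => ?_) hac
    rw [hW] at e
    simp only [Prod.mk.injEq] at e ⊢
    tauto
  have hc : CH p C W ≤ e₂ := by
    rw [hC]
    refine le_trans (CH_mono_cond h0 fun ω ω' _ _ e => ?_) hnc
    rw [hW] at e
    simp only [Prod.mk.injEq] at e ⊢
    tauto
  have h4 : CH p N0 (fun ω => ((V ω, C ω), W ω)) ≤ cJ K := by
    have h5 := nc0_few (d := d) (K := K) H
    rw [hN0]
    refine le_trans (CH_mono_cond h0 fun ω ω' _ _ e => ?_) h5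
    rw [hW, hV, hC] at e
    simp only [Prod.mk.injEq] at e ⊢
    tauto
  have h6 : CH p N0 W ≤ CH p (fun ω => (V ω, C ω)) W +
      CH p N0 (fun ω => ((V ω, C ω), W ω)) := CH_le_add h0 N0 (fun ω => (V ω, C ω)) W
  have h7 := CH_subadd h0 V C W
  -- the higher coefficients are counted once
  have h8 : CH p (fun ω => (V ω, (C ω, N0 ω))) W ≤ e₃ + e₂ + cJ K := by
    have a1 := CH_chain h0 V (fun ω => (C ω, N0 ω)) W
    have a2 := CH_chain h0 N0 (fun ω => (V ω, C ω)) W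
    have a3 : CH p (fun ω => (V ω, (C ω, N0 ω))) W ≤ CH p (fun ω => (N0 ω, (V ω, C ω))) W := by
      refine CH_mono_left h0 fun ω ω' _ _ e => ?_
      simp only [Prod.mk.injEq] at e ⊢
      tauto
    linarith
  have h9 : CH p (d.L K) W ≤ CH p (fun ω => (d.ac K ω, (V ω, (C ω, N0 ω)))) W := by
    refine CH_mono_left h0 fun ω ω' _ _ e => ?_
    obtain ⟨e1, e2⟩ := Prod.ext_iff.mp e
    rw [hW] at e2
    rw [hC, hN0] at e1
    simp only [Prod.mk.injEq] at e1 e2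
    unfold AD.L
    refine Prod.ext e2.2.2.2 (Prod.ext e1.1 ?_)
    funext a
    refine Fin.cases ?_ (fun b => ?_) a
    · exact e1.2.2.2
    · exact congrFun e1.2.2.1 b
  have h10 := CH_subadd h0 (d.ac K) (fun ω => (V ω, (C ω, N0 ω))) W
  linarith

end Pool.AVG5
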